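import Pool.Agent.Helper41.LD6.Defs
import Pool.Agent.Helper46.LD4.A5

/-!
# Project LD6, block E3: the pending variance and the potential at the start
-/

set_option autoImplicit false

namespace Pool.Agent.Helper46.LD6

open Set MeasureTheory Filter Topology
open Pool.Agent.Helper41.LD (av var haar)
open Pool.Agent.Helper41.LD4 (A M W Pot NB NBg)
open Pool.Agent.Helper41.LD6
open Pool.Agent.Helper88.LD (var_nonneg var_le av_mono av_children)
open Pool.Agent.Helper46.LD4 (abs_sq_le_one av_sq_le_one W_nonneg)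

variable {G : ℕ → ℝ → ℝ} {w η : ℝ} {H n : ℕ} {a ℓ : ℝ}

theorem W_le (hw : Wq G w η H n a ℓ) (n' r : ℕ) : W G n' r a ℓ ≤ (r : ℝ) ^ 2 := by
  unfold W
  have h : ∑ j ∈ Finset.Ico (n' - r) n', var (G j) a ℓ ≤ r := by
    refine (Finset.sum_le_card_nsmul _ _ 1 fun j _ =>
      (var_le (hw.meas j) (C := 1) (hw.bdd j) a hw.pos).trans (av_sq_le_one (hw.meas j) (hw.bdd j) a hw.pos)).trans ?_
    rw [Nat.card_Ico, nsmul_eq_mul, mul_one]
    exact_mod_cast (by omega : n' - (n' - r) ≤ r)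
  rw [sq]
  exact mul_le_mul_of_nonneg_left h (Nat.cast_nonneg _)

theorem W_mean (hw : Wq G w η H n a ℓ) {r L B : ℕ} (hB : 1 ≤ B) (hr : r ≤ L) :
    ∑ b ∈ Finset.range B, W G (n + L) r (a + b * (ℓ / B)) (ℓ / B) ≤ B * ((r : ℝ) ^ 2 * w) := by
  have hB0 : (0 : ℝ) < B := by exact_mod_cast hB
  have hℓ : 0 < ℓ := hw.pos
  have hℓB : 0 < ℓ / B := by positivity
  have hw0 := hw.w0
  have h1 : ∀ j ∈ Finset.Ico (n + L - r) (n + L),
      ∑ b ∈ Finset.range B, var (G j) (a + b * (ℓ / B)) (ℓ / B) ≤ B * w := by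
    intro j hj
    rw [Finset.mem_Ico] at hj
    refine (Finset.sum_le_sum fun b _ => var_le (hw.meas j) (C := 1) (hw.bdd j) _ hℓB).trans ?_
    rw [av_children (f := fun x => G j x ^ 2) ((hw.meas j).pow_const 2) (C := 1) (abs_sq_le_one (hw.bdd j)) a hℓ hB]
    refine mul_le_mul_of_nonneg_left ?_ hB0.le
    unfold av
    rw [div_le_iff₀ hℓ]
    have h2 := hw.sq j (by omega)
    have h3 : ∫ x in a..(a + ℓ), G j x ^ 2 = ∫ x in a..(a + ℓ), G j x * G j x := by
      congr 1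
      funext x
      ring
    rw [h3]
    exact h2
  unfold W
  rw [← Finset.mul_sum, Finset.sum_comm]
  have h6 : ∑ j ∈ Finset.Ico (n + L - r) (n + L),
      ∑ b ∈ Finset.range B, var (G j) (a + b * (ℓ / B)) (ℓ / B) ≤ r * (B * w) := by
    refine (Finset.sum_le_card_nsmul _ _ _ h1).trans ?_
    rw [Nat.card_Ico, nsmul_eq_mul]
    refine mul_le_mul_of_nonneg_right ?_ (by positivity)
    exact_mod_cast (by omega : n + L - (n + L - r) ≤ r)
  calc _ ≤ (r : ℝ) * (r * (B * w)) := mul_le_mul_of_nonneg_left h6 (Nat.cast_nonneg _)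
    _ = _ := by ring

theorem M_le_start (hw : Wq G w η H 0 a ℓ) : |M G a ℓ| ≤ w := by
  have hℓ := hw.pos
  have hw0 := hw.w0
  have hη := hw.η0
  have h1 : ∀ j, |A G j a ℓ| ≤ w * η := by
    intro j
    unfold A av
    rw [abs_div, abs_of_pos hℓ, div_le_iff₀ hℓ]
    exact hw.tail j (Nat.zero_le j)
  have h2 : M G a ℓ = ∑ j ∈ Finset.range H, A G j a ℓ := by
    unfold M
    refine tsum_eq_sum fun j hj => ?_
    rw [Finset.mem_range, not_lt] at hj
    unfold A av
    have h3 : ∫ x in a..(a + ℓ), G j x = 0 := by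
      have h4 : (fun x => G j x) = fun _ => (0 : ℝ) := funext fun x => hw.zero j hj x
      rw [h4]
      simp
    rw [h3, zero_div]
  rw [h2]
  refine (Finset.abs_sum_le_sum_abs _ _).trans ((Finset.sum_le_card_nsmul _ _ _ fun j _ => h1 j).trans ?_)
  rw [Finset.card_range, nsmul_eq_mul]
  have h3 := hw.ηH
  have h4 : (0 : ℝ) ≤ H := Nat.cast_nonneg H
  have h5 : (H : ℝ) * η ≤ 1 := by nlinarith [mul_nonneg hη h4, mul_nonneg (mul_nonneg hη h4) h4]
  calc (H : ℝ) * (w * η) = w * (H * η) := by ring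
    _ ≤ w * 1 := mul_le_mul_of_nonneg_left h5 hw0
    _ = w := mul_one w

theorem pot_start (hw : Wq G w η H 0 a ℓ) {r : ℕ} {lam : ℝ} (h0 : 0 ≤ lam) (h : lam * w ≤ 1 / 2) : Pot G 0 r lam a ℓ ≤ 2 := by
  have h3 := M_le_start hw
  have h4 : |lam * M G a ℓ| ≤ 1 / 2 := by
    rw [abs_mul, abs_of_nonneg h0]
    exact (mul_le_mul_of_nonneg_left h3 h0).trans h
  have h5 : Real.cosh (lam * M G a ℓ) ≤ 2 := by
    rw [← Real.cosh_abs]
    have h6 := Real.cosh_le_exp_half_sq |lam * M G a ℓ|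
    have h7 : |lam * M G a ℓ| ^ 2 / 2 ≤ 1 / 2 := by
      have := abs_nonneg (lam * M G a ℓ)
      nlinarith
    have h8 : Real.exp (1 / 2) ≤ 2 := by
      have h9 : Real.exp (1 / 2) ^ 2 ≤ 2 ^ 2 := by
        rw [← Real.exp_nat_mul]
        norm_num
        have := Real.exp_one_lt_d9
        linarith
      exact le_of_sq_le_sq h9 (by norm_num)
    exact h6.trans ((Real.exp_le_exp.2 h7).trans h8)
  unfold Pot W
  rw [Nat.zero_sub, Finset.Ico_self, Finset.sum_empty, mul_zero, mul_zero, add_zero, mul_one]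
  exact h5

end Pool.Agent.Helper46.LD6
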