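import Pool.Agent.Helper9.LD6.E1
import Pool.Agent.Helper9.LD6.Win
import Pool.Agent.Helper46.LD6.E3
import Pool.Agent.Helper4.LD6.H5
import Pool.Agent.Helper17.LD6.GM
import Pool.Agent.Helper68.LD6.TTB1
import Pool.Agent.Helper76.LD6.Num

/-!
# Project LD6, block STA: start of a stage, the sums on a good window
-/

set_option autoImplicit false

namespace Pool.Agent.Helper46.LD6

open Set MeasureTheory Filter Topology
open Pool.Agent.Helper41.LD4 (A M W Pot NB NBg)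
open Pool.Agent.Helper41.LD6
open Pool.Agent.Helper46.LD4 (Pot_nonneg M_of_Pot)
open Pool.Agent.Helper9.LD6 (sum_sub_M win)
open Pool.Agent.Helper4.LD6 (Qs_card om_pos dm_lev vq_lo)
open Pool.Agent.Helper17.LD6 (G_NB)
open Pool.Agent.Helper68.LD6 (T_start)
open Pool.Agent.Helper76.LD6 (num_K num_E num_R)

variable {F : Pm} {K : ℕ} {a₀ ℓst a ℓ x : ℝ} {q : Fin (F.d + 1) → ℕ}

theorem F_E_ge (F : Pm) (K : ℕ) : F.d * K ≤ F.E K := by
  unfold Pm.E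
  exact Nat.mul_le_mul_right _ (by omega)

theorem R_pos (F : Pm) : 1 ≤ F.R := by
  unfold Pm.R
  omega

theorem lam_pos (hF : F.Ok) (hK : 1 ≤ K) (q : Fin (F.d + 1) → ℕ) : 0 < F.lam K q := by
  have h1 := (om_pos K (lev q)).1
  have hX : (0 : ℝ) < F.X := by exact_mod_cast hF.hX
  have hK0 : (0 : ℝ) < K := by exact_mod_cast hK
  unfold Pm.lam
  positivity

theorem lam_le (hF : F.Ok) (hK : 1 ≤ K) (q : Fin (F.d + 1) → ℕ) : F.lam K q ≤ 1 / 4 := by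
  obtain ⟨h0, h1⟩ := om_pos K (lev q)
  have hX : (1 : ℝ) ≤ F.X := by exact_mod_cast hF.hX
  have hK1 : (1 : ℝ) ≤ K := by exact_mod_cast hK
  have h2 : (1 : ℝ) ≤ F.X * (K : ℝ) ^ 3 := one_le_mul_of_one_le_of_one_le hX (one_le_pow₀ hK1)
  have h3 : 1 / (16384 * (F.X * (K : ℝ) ^ 3)) ≤ 1 / 4 := by
    apply one_div_le_one_div_of_le (by norm_num)
    linarith
  unfold Pm.lam
  calc 1 / (16384 * (F.X * (K : ℝ) ^ 3)) * om K (lev q) ≤ 1 / 4 * 1 := mul_le_mul h3 h1 h0.le (by norm_num)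
    _ = 1 / 4 := mul_one _

theorem stage_start6 (hF : F.Ok) (hK : F.Big K) (S : F.St K a₀ ℓst) : F.Good K a₀ ℓst a₀ ℓst := by
  have hKK := num_K hK
  have hK1 : 1 ≤ K := by omega
  have hT := T_start F K a₀ ℓst
  obtain ⟨e1, -, e2, -⟩ := num_E F K
  refine ⟨fun j hj => ?_, ?_⟩
  · exfalso
    rw [hT] at hj
    have h1 := F_E_ge F K
    have h2 : F.E K ≤ F.R * F.E K := Nat.le_mul_of_pos_left _ (R_pos F)
    have h3 : F.d ≤ F.d * K := Nat.le_mul_of_pos_right _ hK1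
    omega
  · have h1 : ∀ q ∈ Qs F.d K, Pot (F.G K a₀ ℓst q) (F.T K a₀ ℓst ℓst) (F.R * F.E K) (F.lam K q) a₀ ℓst ≤ 2 := by
      intro q hq
      have hw := win hF hK S S.pos le_rfl le_rfl hq
      rw [hT] at hw ⊢
      refine pot_start hw (lam_pos hF hK1 q).le ?_
      obtain ⟨hv0, hv1⟩ := vq_lo hq
      have h2 := lam_le hF hK1 q
      have h3 := (lam_pos hF hK1 q).le
      have h4 : 0 ≤ vq q := le_trans (by positivity) hv0
      nlinarith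
    refine (Finset.sum_le_sum h1).trans ?_
    rw [Finset.sum_const, nsmul_eq_mul]
    have h2 : ((Qs F.d K).card : ℝ) ≤ 2 ^ (K * (F.d + 1)) := by exact_mod_cast Qs_card F.d K
    have h3 : (2 : ℝ) ^ (K * (F.d + 1)) ≤ 2 ^ F.E K := pow_le_pow_right₀ (by norm_num) e2
    have h4 : (2 : ℝ) ≤ 2 ^ F.E K := by
      calc (2 : ℝ) = 2 ^ 1 := (pow_one _).symm
        _ ≤ 2 ^ F.E K := pow_le_pow_right₀ (by norm_num) (by omega)
    calc ((Qs F.d K).card : ℝ) * 2 ≤ 2 ^ F.E K * 2 ^ F.E K :=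
          mul_le_mul (h2.trans h3) h4 (by norm_num) (by positivity)
      _ = 4 ^ F.E K := by rw [← mul_pow]; norm_num
      _ ≤ 16 ^ F.E K := pow_le_pow_left₀ (by norm_num) (by norm_num) _

theorem stage_sums6 (hF : F.Ok) (hK : F.Big K) (S : F.St K a₀ ℓst) (hℓ : 0 < ℓ) (h1 : a₀ ≤ a) (h2 : a + ℓ ≤ a₀ + ℓst)
    (hT : F.T K a₀ ℓst ℓ ≤ 2 ^ (2 * K)) (hgood : F.Good K a₀ ℓst a ℓ) (hx : x ∈ Icc a (a + ℓ)) (hqs : q ∈ Qs F.d K) :
    |∑ j ∈ Finset.range (F.T K a₀ ℓst ℓ), ∏ i : Fin (F.d + 1), hr (q i) (F.U K a₀ ℓst (j + i) x)| ≤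
      131072 * F.X * (F.d + 4) * (K : ℝ) ^ 4 * (4 * (K : ℝ)) ^ dm q := by
  have hKK := num_K hK
  have hK1 : 1 ≤ K := by omega
  have hKr : (1 : ℝ) ≤ K := by exact_mod_cast hK1
  have hX : (1 : ℝ) ≤ F.X := by exact_mod_cast hF.hX
  have hd : (0 : ℝ) ≤ F.d := Nat.cast_nonneg _
  have hw := win hF hK S hℓ h1 h2 hqs
  have hNB := G_NB hqs hgood.1
  have i1 := sum_sub_M hw hNB hx
  have hlam := lam_pos hF hK1 q
  have hPot : Pot (F.G K a₀ ℓst q) (F.T K a₀ ℓst ℓ) (F.R * F.E K) (F.lam K q) a ℓ ≤ 16 ^ F.E K :=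
    (Finset.single_le_sum (f := fun q : Fin (F.d + 1) → ℕ => Pot (F.G K a₀ ℓst q) (F.T K a₀ ℓst ℓ) (F.R * F.E K) (F.lam K q) a ℓ)
      (fun p _ => Pot_nonneg _ _ _ _ _ hℓ) hqs).trans hgood.2
  have i2 := M_of_Pot hℓ hlam hPot
  obtain ⟨hv0, hv1⟩ := vq_lo hqs
  obtain ⟨r1, -⟩ := num_R hK
  have r2 : F.R * F.E K ≤ K ^ 3 := le_trans (Nat.le_self_pow (by norm_num) _) r1
  have r3 : ((F.R * F.E K : ℕ) : ℝ) ≤ (K : ℝ) ^ 3 := by exact_mod_cast r2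
  -- the sum is the sum of the functionals
  have e1 : ∑ j ∈ Finset.range (F.T K a₀ ℓst ℓ), ∏ i : Fin (F.d + 1), hr (q i) (F.U K a₀ ℓst (j + i) x) =
      ∑ j ∈ Finset.range (F.T K a₀ ℓst ℓ), F.G K a₀ ℓst q j x := by
    refine Finset.sum_congr rfl fun j hj => ?_
    unfold Pm.G GQ
    rw [if_pos ((Finset.mem_range.1 hj).trans_le hT)]
  -- the factor `(4 K) ^ dm`
  obtain ⟨P, hP⟩ : ∃ P : ℝ, P = (4 * (K : ℝ)) ^ dm q := ⟨_, rfl⟩
  have hP1 : 1 ≤ P := by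
    rw [hP]
    exact one_le_pow₀ (by linarith)
  have e2 : 1 / F.lam K q ≤ 16384 * (F.X * (K : ℝ) ^ 3) * P := by
    have h3 : 1 / F.lam K q = 16384 * (F.X * (K : ℝ) ^ 3) * (2 * ((K : ℝ) + 1)) ^ dm q := by
      unfold Pm.lam om
      rw [dm_lev, one_div_pow, ← one_div_mul_one_div_rev, one_div_one_div, one_div_one_div, mul_comm]
    rw [h3, hP]
    refine mul_le_mul_of_nonneg_left (pow_le_pow_left₀ (by positivity) (by linarith) _) (by positivity)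
  have e3 : (3 * (F.E K : ℝ) + 1) / F.lam K q ≤ 65536 * (F.X * (F.d + 4) * (K : ℝ) ^ 4 * P) := by
    rw [div_eq_mul_one_div]
    have h4 : (F.E K : ℝ) = (F.d + 4) * K := by
      unfold Pm.E
      push_cast
      ring
    have h5 : 3 * (F.E K : ℝ) + 1 ≤ 4 * ((F.d + 4) * K) := by
      rw [h4]
      nlinarith
    have h6 : 0 ≤ 3 * (F.E K : ℝ) + 1 := by positivity
    calc (3 * (F.E K : ℝ) + 1) * (1 / F.lam K q) ≤ 4 * ((F.d + 4) * K) * (16384 * (F.X * (K : ℝ) ^ 3) * P) :=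
          mul_le_mul h5 e2 (by positivity) (by positivity)
      _ = 65536 * (F.X * (F.d + 4) * (K : ℝ) ^ 4 * P) := by ring
  have e4 : 2 * ((F.R * F.E K : ℕ) : ℝ) + 2 * vq q ≤ 65536 * (F.X * (F.d + 4) * (K : ℝ) ^ 4 * P) := by
    have h3 : (K : ℝ) ^ 3 ≤ (K : ℝ) ^ 4 := pow_le_pow_right₀ hKr (by norm_num)
    have h4 : (1 : ℝ) ≤ (K : ℝ) ^ 4 := one_le_pow₀ hKr
    have h5 : (1 : ℝ) ≤ F.X * (F.d + 4) := one_le_mul_of_one_le_of_one_le hX (by linarith)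
    have h6 : (K : ℝ) ^ 4 ≤ F.X * (F.d + 4) * (K : ℝ) ^ 4 := le_mul_of_one_le_left (by positivity) h5
    have h7 : F.X * (F.d + 4) * (K : ℝ) ^ 4 ≤ F.X * (F.d + 4) * (K : ℝ) ^ 4 * P := le_mul_of_one_le_right (by positivity) hP1
    linarith
  rw [e1, ← hP]
  have h6 : ∑ j ∈ Finset.range (F.T K a₀ ℓst ℓ), F.G K a₀ ℓst q j x =
      (∑ j ∈ Finset.range (F.T K a₀ ℓst ℓ), F.G K a₀ ℓst q j x - M (F.G K a₀ ℓst q) a ℓ) + M (F.G K a₀ ℓst q) a ℓ := by ring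
  rw [h6]
  refine (abs_add_le _ _).trans ?_
  have h7 : 131072 * (F.X : ℝ) * (F.d + 4) * (K : ℝ) ^ 4 * P = 131072 * (F.X * (F.d + 4) * (K : ℝ) ^ 4 * P) := by ring
  rw [h7]
  linarith

end Pool.Agent.Helper46.LD6
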